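import Pool.Agent.Helper30.UP.St

set_option autoImplicit false

/-!
# Project UP, module A1 (divisibility of the product of the weights)
-/

noncomputable section

namespace Pool.Agent.Helper42.UP

open Finset Pool.Agent.Helper30.UP
open scoped Classical

/-- the character with integer values -/
def chiZ {c : ℕ} (x v : E c) : ℤ := if x ⬝ᵥ v = 0 then 1 else -1

/-- the Fourier transform as an integer -/
def Fz {c n : ℕ} (s : Fin n → E c) (x : E c) : ℤ := n - 2 * wt s x

theorem chiZ_cast {c : ℕ} (x v : E c) : ((chiZ x v : ℤ) : ℝ) = chi x v := by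
  unfold chiZ chi
  split_ifs <;> simp

theorem chiZ_add {c : ℕ} (x v w : E c) : chiZ x (v + w) = chiZ x v * chiZ x w := by
  have h : ((chiZ x (v + w) : ℤ) : ℝ) = ((chiZ x v * chiZ x w : ℤ) : ℝ) := by
    push_cast
    rw [chiZ_cast, chiZ_cast, chiZ_cast, chi_add_right]
  exact_mod_cast h

theorem chiZ_zero {c : ℕ} (x : E c) : chiZ x 0 = 1 := by
  have h : ((chiZ x 0 : ℤ) : ℝ) = ((1 : ℤ) : ℝ) := by
    rw [chiZ_cast, chi_zero_right]; simp
  exact_mod_cast h

theorem Fz_eq {c n : ℕ} (s : Fin n → E c) (x : E c) : Fz s x = ∑ i, chiZ x (s i) := by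
  have h : ((Fz s x : ℤ) : ℝ) = ((∑ i, chiZ x (s i) : ℤ) : ℝ) := by
    push_cast
    simp only [chiZ_cast]
    unfold Fz
    push_cast
    rw [← Fh_eq]
    rfl
  exact_mod_cast h

theorem sum_chiZ {c : ℕ} (v : E c) : (2 : ℤ) ^ c ∣ ∑ x : E c, chiZ x v := by
  have h : ((∑ x : E c, chiZ x v : ℤ) : ℝ) = ((if v = 0 then (2 : ℤ) ^ c else 0 : ℤ) : ℝ) := by
    push_cast
    simp only [chiZ_cast]
    rw [sum_chi]
  have h2 : ∑ x : E c, chiZ x v = if v = 0 then (2 : ℤ) ^ c else 0 := by exact_mod_cast h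
  rw [h2]
  split_ifs
  · exact dvd_refl _
  · exact dvd_zero _

theorem key {c n : ℕ} (s : Fin n → E c) (a : ℕ → ℤ) (Ω : Finset ℕ) :
    ∀ v : E c, (2 : ℤ) ^ c ∣ ∑ x : E c, (∏ ω ∈ Ω, (Fz s x - a ω)) * chiZ x v := by
  induction Ω using Finset.induction_on with
  | empty =>
    intro v
    simp only [Finset.prod_empty, one_mul]
    exact sum_chiZ v
  | insert b Ω hb ih =>
    intro v
    have e : ∑ x : E c, (∏ ω ∈ insert b Ω, (Fz s x - a ω)) * chiZ x v
        = ∑ i, ∑ x : E c, (∏ ω ∈ Ω, (Fz s x - a ω)) * chiZ x (s i + v)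
          - a b * ∑ x : E c, (∏ ω ∈ Ω, (Fz s x - a ω)) * chiZ x v := by
      rw [Finset.sum_comm, Finset.mul_sum, ← Finset.sum_sub_distrib]
      apply Finset.sum_congr rfl
      intro x _
      rw [Finset.prod_insert hb, ← Finset.mul_sum]
      have : ∑ i, chiZ x (s i + v) = Fz s x * chiZ x v := by
        rw [Fz_eq, Finset.sum_mul]
        exact Finset.sum_congr rfl fun i _ => chiZ_add x (s i) v
      rw [this]
      ring
    rw [e]
    exact dvd_sub (Finset.dvd_sum fun i _ => ih (s i + v)) ((ih v).mul_left _)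

theorem hA1 : StA1 := by
  intro c n s hf
  have h := key s (fun ω => (n : ℤ) - 2 * ω) (Om s) 0
  have e : ∑ x : E c, (∏ ω ∈ Om s, (Fz s x - ((n : ℤ) - 2 * ω))) * chiZ x 0
      = ∏ ω ∈ Om s, (2 * (ω : ℤ)) := by
    rw [Finset.sum_eq_single 0]
    · rw [chiZ_zero, mul_one]
      apply Finset.prod_congr rfl
      intro ω _
      unfold Fz
      rw [wt_zero]
      push_cast
      ring
    · intro x _ hx
      have hmem : wt s x ∈ Om s :=
        Finset.mem_image.mpr ⟨x, Finset.mem_filter.mpr ⟨Finset.mem_univ _, hx⟩, rfl⟩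
      rw [Finset.prod_eq_zero hmem, zero_mul]
      unfold Fz
      ring
    · intro h0
      exact absurd (Finset.mem_univ _) h0
  rw [e] at h
  have h2 : ((2 ^ c : ℕ) : ℤ) ∣ ((∏ ω ∈ Om s, (2 * ω) : ℕ) : ℤ) := by
    push_cast
    exact h
  exact Int.natCast_dvd_natCast.mp h2

end Pool.Agent.Helper42.UP
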