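import Pool.Agent.Helper30.UP.St

set_option autoImplicit false

/-!
# Project UP, module BN (binomial asymptotics)
-/

noncomputable section

namespace Pool.Agent.Helper42.UP

open Finset Pool.Agent.Helper30.UP
open scoped Classical

theorem choose_le_card (n r : ℕ) :
    n.choose r ≤ (univ.filter (fun x : Fin n → ZMod 2 => hammingNorm x ≤ r)).card := by
  have h1 : n.choose r = (Finset.powersetCard r (univ : Finset (Fin n))).card := by
    rw [Finset.card_powersetCard, Finset.card_univ, Fintype.card_fin]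
  rw [h1]
  have hsupp : ∀ S : Finset (Fin n),
      (univ.filter (fun i => (if i ∈ S then (1 : ZMod 2) else 0) ≠ 0)) = S := by
    intro S
    ext i
    by_cases hi : i ∈ S <;> simp [hi]
  apply Finset.card_le_card_of_injOn (fun S i => if i ∈ S then (1 : ZMod 2) else 0)
  · intro S hS
    have hS' := (Finset.mem_powersetCard.mp (Finset.mem_coe.mp hS)).2
    rw [Finset.mem_coe, Finset.mem_filter]
    refine ⟨Finset.mem_univ _, ?_⟩
    unfold hammingNorm
    have : (univ.filter (fun i => (if i ∈ S then (1 : ZMod 2) else 0) ≠ 0)).card = r := by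
      rw [hsupp S, hS']
    convert this.le
  · intro S _ S' _ h
    rw [← hsupp S, ← hsupp S']
    simp only at h
    apply Finset.filter_congr
    intro i _
    rw [congrFun h i]

theorem hBN : StBN := by
  intro r κ ε hr hκ hε
  have hr0 : (0 : ℝ) < r := by exact_mod_cast hr
  refine ⟨⌈(r : ℝ) * (κ + r) / ε⌉₊ + r + 1, ?_⟩
  intro n hn
  have hn1 : (r : ℝ) * (κ + r) / ε ≤ n := by
    refine (Nat.le_ceil _).trans ?_
    have : ⌈(r : ℝ) * (κ + r) / ε⌉₊ ≤ n := by omega
    exact_mod_cast this
  have hnr : r < n := by omega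
  have hn0 : (0 : ℝ) < n := by
    have : 0 < n := by omega
    exact_mod_cast this
  have hcast : (n.choose r : ℝ) ≤
      ((univ.filter (fun x : Fin n → ZMod 2 => hammingNorm x ≤ r)).card : ℕ) := by
    exact_mod_cast choose_le_card n r
  refine le_trans ?_ hcast
  have hfac : (0 : ℝ) < r.factorial := by exact_mod_cast Nat.factorial_pos r
  have e1 : (1 - ε) * ((r : ℝ) ^ r / r.factorial) * (((n : ℝ) + κ) / r) ^ r
      = ((1 - ε) * ((n : ℝ) + κ) ^ r) / r.factorial := by
    rw [div_pow]
    field_simp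
  rw [e1, div_le_iff₀ hfac]
  have h2 : (((n + 1 - r : ℕ) : ℝ)) ^ r ≤ n.choose r * r.factorial := by
    have h3 : (n + 1 - r) ^ r ≤ n.descFactorial r := Nat.pow_sub_le_descFactorial n r
    rw [Nat.descFactorial_eq_factorial_mul_choose] at h3
    have h4 : (((n + 1 - r) ^ r : ℕ) : ℝ) ≤ ((r.factorial * n.choose r : ℕ) : ℝ) := by
      exact_mod_cast h3
    push_cast at h4 ⊢
    linarith
  refine le_trans ?_ h2
  have hc : ((n + 1 - r : ℕ) : ℝ) = (n : ℝ) + 1 - r := by
    push_cast [Nat.cast_sub (show r ≤ n + 1 by omega)]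
    ring
  rw [hc]
  have hnk : (0 : ℝ) < n + κ := by linarith
  set t : ℝ := (κ + r - 1) / (n + κ) with ht
  have hr1 : (1 : ℝ) ≤ r := by exact_mod_cast hr
  have ht0 : 0 ≤ t := by
    rw [ht]
    apply div_nonneg _ hnk.le
    linarith
  have ht1 : r * t ≤ ε := by
    rw [ht, ← mul_div_assoc, div_le_iff₀ hnk]
    rw [div_le_iff₀ hε] at hn1
    nlinarith
  have hnr' : (r : ℝ) + 1 ≤ n := by exact_mod_cast hnr
  have ht2 : t ≤ 1 := by
    rw [ht, div_le_iff₀ hnk]
    linarith
  have e2 : (n : ℝ) + 1 - r = (1 - t) * (n + κ) := by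
    rw [ht]
    field_simp
    ring
  rw [e2, mul_pow]
  apply mul_le_mul_of_nonneg_right _ (by positivity)
  have hb := one_add_mul_le_pow (a := -t) (by linarith) r
  calc 1 - ε ≤ 1 + r * (-t) := by linarith
    _ ≤ (1 + -t) ^ r := hb
    _ = (1 - t) ^ r := by ring

end Pool.Agent.Helper42.UP
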