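import Pool.Agent.Helper30.UP.St

set_option autoImplicit false

/-!
# Project UP, module A2 (all weights are divisible by a large D)
-/

noncomputable section

namespace Pool.Agent.Helper42.UP

open Finset Pool.Agent.Helper30.UP
open scoped Classical

theorem hA2 (hA1 : StA1) : StA2 := by
  intro r hr
  refine ⟨r + 1, ?_⟩
  intro n hn c s hf hcard hbig
  have hr0 : (0 : ℝ) < r := by exact_mod_cast hr
  have hn0 : (0 : ℝ) < n := by
    have : 0 < n := by omega
    exact_mod_cast this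
  -- Om is nonempty
  have hc : c ≠ 0 := by
    intro hc0
    subst hc0
    rw [pow_zero] at hbig
    have h1 : (1 : ℝ) < (n : ℝ) / r := by
      rw [lt_div_iff₀ hr0, one_mul]
      have : r < n := by omega
      exact_mod_cast this
    have h2 : (1 : ℝ) < ((n : ℝ) / r) ^ r := one_lt_pow₀ h1 (by omega)
    linarith
  have hne : (Om s).Nonempty := by
    have : ∃ x : E c, x ≠ 0 := by
      refine ⟨fun _ => 1, ?_⟩
      intro h
      have h1 := congrFun h ⟨0, Nat.pos_of_ne_zero hc⟩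
      exact one_ne_zero h1
    obtain ⟨x, hx⟩ := this
    exact ⟨wt s x, Finset.mem_image.mpr ⟨x, Finset.mem_filter.mpr ⟨Finset.mem_univ _, hx⟩, rfl⟩⟩
  have hpos : ∀ ω ∈ Om s, ω ≠ 0 ∧ ω ≤ n := by
    intro ω hω
    obtain ⟨x, hx, rfl⟩ := Finset.mem_image.mp hω
    exact ⟨hf x (Finset.mem_filter.mp hx).2, wt_le s x⟩
  obtain ⟨ω₀, hω₀, hmin⟩ := Finset.exists_min_image (Om s) (fun ω => ω.factorization 2) hne
  refine ⟨2 ^ (ω₀.factorization 2), Nat.one_le_two_pow, ?_, ?_⟩
  · -- the size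
    have h1 := hA1 c n s hf
    have hprod0 : ∏ ω ∈ Om s, (2 * ω) ≠ 0 :=
      Finset.prod_ne_zero_iff.mpr fun ω hω => Nat.mul_ne_zero (by norm_num) (hpos ω hω).1
    have h2 : c ≤ (∏ ω ∈ Om s, (2 * ω)).factorization 2 :=
      (Nat.Prime.pow_dvd_iff_le_factorization Nat.prime_two hprod0).mp h1
    have h3 : (∏ ω ∈ Om s, (2 * ω)).factorization 2 = ∑ ω ∈ Om s, (2 * ω).factorization 2 := by
      rw [Nat.factorization_prod (fun ω hω => Nat.mul_ne_zero (by norm_num) (hpos ω hω).1)]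
      simp
    have h4 : (2 : ℕ) ^ c ≤ ∏ ω ∈ Om s, 2 ^ ((2 * ω).factorization 2) := by
      rw [Finset.prod_pow_eq_pow_sum, ← h3]
      exact Nat.pow_le_pow_right (by norm_num) h2
    have h5 : ∏ ω ∈ Om s, 2 ^ ((2 * ω).factorization 2)
        ≤ (2 * 2 ^ (ω₀.factorization 2)) * (2 * n) ^ (r - 1) := by
      rw [← Finset.mul_prod_erase _ _ hω₀]
      apply Nat.mul_le_mul
      · rw [Nat.factorization_mul (by norm_num) (hpos ω₀ hω₀).1]
        rw [Finsupp.add_apply, Nat.Prime.factorization_self Nat.prime_two, pow_add, pow_one]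
      · calc ∏ ω ∈ (Om s).erase ω₀, 2 ^ ((2 * ω).factorization 2)
            ≤ ∏ _ω ∈ (Om s).erase ω₀, (2 * n) := by
              apply Finset.prod_le_prod'
              intro ω hω
              have hω' := hpos ω (Finset.mem_of_mem_erase hω)
              refine (Nat.ordProj_le 2 (Nat.mul_ne_zero (by norm_num) hω'.1)).trans ?_
              exact Nat.mul_le_mul_left 2 hω'.2
          _ = (2 * n) ^ ((Om s).erase ω₀).card := by rw [Finset.prod_const]
          _ ≤ (2 * n) ^ (r - 1) := by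
              apply Nat.pow_le_pow_right (by omega)
              rw [Finset.card_erase_of_mem hω₀]
              omega
    have h6 : (2 : ℝ) ^ c ≤ 2 * 2 ^ (ω₀.factorization 2) * (2 * n) ^ (r - 1) := by
      exact_mod_cast h4.trans h5
    have h7 : ((n : ℝ) / r) ^ r ≤ 2 * 2 ^ (ω₀.factorization 2) * (2 * n) ^ (r - 1) := hbig.trans h6
    rw [div_pow, div_le_iff₀ (by positivity)] at h7
    obtain ⟨q, rfl⟩ : ∃ q, r = q + 1 := ⟨r - 1, by omega⟩
    rw [Nat.add_sub_cancel] at h7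
    have h8 : (n : ℝ) ^ q * n ≤ (n : ℝ) ^ q * ((2 * ((q + 1 : ℕ) : ℝ)) ^ (q + 1) *
        2 ^ (ω₀.factorization 2)) := by
      calc (n : ℝ) ^ q * n = (n : ℝ) ^ (q + 1) := by ring
        _ ≤ 2 * 2 ^ (ω₀.factorization 2) * (2 * n) ^ q * ((q + 1 : ℕ) : ℝ) ^ (q + 1) := h7
        _ = _ := by rw [mul_pow, mul_pow]; ring
    have h9 := le_of_mul_le_mul_left h8 (by positivity)
    exact_mod_cast h9
  · intro x
    by_cases hx : x = 0
    · rw [hx, wt_zero]
      exact dvd_zero _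
    · have hmem : wt s x ∈ Om s :=
        Finset.mem_image.mpr ⟨x, Finset.mem_filter.mpr ⟨Finset.mem_univ _, hx⟩, rfl⟩
      exact (pow_dvd_pow 2 (hmin _ hmem)).trans (Nat.ordProj_dvd _ 2)

end Pool.Agent.Helper42.UP
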